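import Pool.Agent.R816.ClosedSub

/-!
# A closed subgroup of a free topological group which is a `k_R`-space need not be a `k_R`-space

`FTG X` is the free group on the set `X`, with the finest group topology making the inclusion
`gen : X → FTG X` of the generators continuous. The space `X` is the subspace of the Cantor cube
`{0,1}^{P(ω)}` consisting of all points whose support has fewer than `𝔠` elements, together with the
evaluation points `e n = (A ↦ [n ∈ A])`, and `H` is the subgroup generated by the points `e n`.
-/

set_option autoImplicit false

open Topology Set Pool.Agent.R816.FTG Pool.Agent.R816.ClosedSub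

namespace Pool.Agent.Results.MP_02575e_gt.ClosedSubgroupNotKR

/-- A `k_R`-space: every real-valued function which is continuous on each compact subset is
continuous. -/
def KR (Y : Type) [TopologicalSpace Y] : Prop :=
  ∀ f : Y → ℝ, (∀ K : Set Y, IsCompact K → ContinuousOn f K) → Continuous f

/-- Sanity check: the topology of `F(X)` is the finest group topology with `gen` continuous. -/
theorem instTop_eq (X : Type) [TopologicalSpace X] : instTop X =
    sInf {t : TopologicalSpace (FTG X) |
      @IsTopologicalGroup (FTG X) t _ ∧ @Continuous X (FTG X) _ t gen} := rfl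

/-- Sanity check: the universal property of the free topological group. -/
theorem universal {X G : Type} [TopologicalSpace X] [Group G] [TopologicalSpace G]
    [IsTopologicalGroup G] (f : X → G) (hf : Continuous f) :
    ∃! φ : FTG X →* G, Continuous φ ∧ ∀ x, φ (gen x) = f x := by
  refine ⟨Pool.Agent.R816.FTG.lift f, ⟨lift_continuous hf, fun x => lift_gen f x⟩, ?_⟩
  rintro ψ ⟨_, hψ⟩
  exact hom_ext fun x => by rw [hψ, lift_gen]

/-- A Hausdorff topological group is a Tychonoff space. -/
theorem t35_of_t2 (G : Type) [Group G] [TopologicalSpace G] [IsTopologicalGroup G] [T2Space G] :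
    T35Space G := by
  let _ : UniformSpace G := IsTopologicalGroup.rightUniformSpace G
  exact {}

/-- Sanity check: the space is a subspace of its free topological group. -/
theorem isEmbedding_gen :
    IsEmbedding (gen : Pool.Agent.R816.ClosedSub.X → FTG Pool.Agent.R816.ClosedSub.X) := by
  let b : Bool → Multiplicative ℤ := fun t => Multiplicative.ofAdd (if t then 1 else 0)
  let β : Pool.Agent.R816.ClosedSub.X → (Set ℕ → Multiplicative ℤ) := fun x A => b (x.1 A)
  have hβ : Continuous β := continuous_pi fun A =>
    (continuous_of_discreteTopology (f := b)).comp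
      ((continuous_apply A).comp continuous_subtype_val)
  let c : Multiplicative ℤ → Bool := fun z => decide (z ≠ 1)
  let d : (Set ℕ → Multiplicative ℤ) → (Set ℕ → Bool) := fun z A => c (z A)
  have hd : Continuous d := continuous_pi fun A =>
    (continuous_of_discreteTopology (f := c)).comp (continuous_apply A)
  have h : d ∘ β = Subtype.val := by
    funext x A
    cases hx : x.1 A <;> simp [d, β, c, b, hx]
  have hβe : IsEmbedding β := IsEmbedding.of_comp hβ hd (h ▸ IsEmbedding.subtypeVal)
  have h2 : (Pool.Agent.R816.FTG.lift β) ∘ gen = β := funext fun x => lift_gen β x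
  exact IsEmbedding.of_comp (continuous_gen _) (lift_continuous hβ) (by rw [h2]; exact hβe)

/-- There is a Tychonoff space `X` for which `F(X)` is a `k_R`-space with a closed subgroup that is
not a `k_R`-space. -/
theorem result : ∃ (X : Type) (_ : TopologicalSpace X),
    T35Space X ∧ IsEmbedding (gen : X → FTG X) ∧ T35Space (FTG X) ∧ KR (FTG X) ∧
    ∃ H : Subgroup (FTG X), IsClosed (H : Set (FTG X)) ∧ ¬ KR H :=
  ⟨Pool.Agent.R816.ClosedSub.X, inferInstance, inferInstance, isEmbedding_gen, t35_of_t2 _,
    isKR_FTG, H, isClosed_H, not_isKR_H⟩

end Pool.Agent.Results.MP_02575e_gt.ClosedSubgroupNotKR
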